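import Pool.Agent.Helper69.UF.Norm
import Pool.Agent.Helper78.UF.Params

/-!
# The minimal polynomial of a root is found by lattice reduction
-/

set_option autoImplicit false

namespace Pool.Agent.Helper69.UF

open Pool.Agent.Helper78.UF

open Polynomial

/-- the statement of `lll_spec` -/
def LLLSpec : Prop :=
  ∀ (m : ℕ) (B : List (List ℤ)), B ≠ [] → (∀ b ∈ B, b.length = m) →
    LinearIndependent ℤ (fun i : Fin B.length => zvec m (B.getD i [])) →
    ∀ x : ℕ, (∀ b ∈ B, dotZ b b ≤ 2 ^ x) → ∀ K T : ℕ, lllT B.length x ≤ T →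
      lllK B.length m x ≤ K →
      ((lll K T B).headD []).length = m ∧ zvec m ((lll K T B).headD []) ∈ lat m B ∧
        zvec m ((lll K T B).headD []) ≠ 0 ∧
        (∀ v ∈ lat m B, v ≠ 0 → ∑ i, zvec m ((lll K T B).headD []) i ^ 2 ≤
          2 ^ (B.length - 1) * ∑ i, v i ^ 2) ∧
        (∀ v ∈ lat m B, ∀ t : ℤ, zvec m ((lll K T B).headD []) = t • v → t = 1 ∨ t = -1)

theorem coeff_toPoly' (l : List ℤ) (k : ℕ) : (toPoly l).coeff k = l.getD k 0 := by
  induction l generalizing k with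
  | nil => simp [toPoly]
  | cons a l ih =>
    cases k with
    | zero => simp [toPoly]
    | succ k =>
      rw [toPoly, coeff_add, coeff_X_mul, ih, coeff_C_succ, zero_add, List.getD_cons_succ]

theorem dotZ_self {m : ℕ} {b : List ℤ} (hb : b.length = m) :
    dotZ b b = ∑ c, zvec m b c ^ 2 := by
  subst hb
  induction b with
  | nil => simp [dotZ]
  | cons a b ih =>
    have h1 : dotZ (a :: b) (a :: b) = a ^ 2 + dotZ b b := by
      simp [dotZ, sq]
    rw [h1, ih]
    rw [show (∑ c, zvec (a :: b).length (a :: b) c ^ 2) =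
      ∑ c : Fin (b.length + 1), zvec (b.length + 1) (a :: b) c ^ 2 from rfl, Fin.sum_univ_succ]
    simp [zvec]

/-- the combination of the rows with coefficients `p` -/
def comb (n w D : ℕ) (g : ℤ × ℤ) (p : ℕ → ℤ) : Fin (D + 3) → ℤ :=
  ∑ i ∈ Finset.range (D + 1), p i • zvec (D + 3) (latRow n w D g i)

theorem mem_lat_iff {n w D : ℕ} {g : ℤ × ℤ} {v : Fin (D + 3) → ℤ} :
    v ∈ lat (D + 3) (lattice n w D g) ↔ ∃ p : ℕ → ℤ, v = comb n w D g p := by
  constructor
  · intro hv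
    refine Submodule.span_induction (p := fun v _ => ∃ p : ℕ → ℤ, v = comb n w D g p)
      ?_ ?_ ?_ ?_ hv
    · rintro _ ⟨l, hl, rfl⟩
      obtain ⟨i, hi, rfl⟩ := List.mem_map.1 hl
      refine ⟨fun j => if j = i then 1 else 0, ?_⟩
      rw [comb, Finset.sum_eq_single i]
      · simp
      · intro j _ hj; simp [hj]
      · intro h; exact absurd (Finset.mem_range.2 (List.mem_range.1 hi)) h
    · exact ⟨0, by simp [comb]⟩
    · rintro _ _ _ _ ⟨p, rfl⟩ ⟨q, rfl⟩
      exact ⟨p + q, by simp [comb, add_smul, Finset.sum_add_distrib]⟩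
    · rintro a _ _ ⟨p, rfl⟩
      exact ⟨a • p, by simp [comb, Finset.smul_sum, mul_smul]⟩
  · rintro ⟨p, rfl⟩
    refine Submodule.sum_mem _ fun i hi => Submodule.smul_mem _ _ (Submodule.subset_span ?_)
    exact ⟨_, List.mem_map.2 ⟨i, List.mem_range.2 (Finset.mem_range.1 hi), rfl⟩, rfl⟩

theorem zvec_latRow_lt (n w D : ℕ) (g : ℤ × ℤ) (i : ℕ) (c : Fin (D + 1)) :
    zvec (D + 3) (latRow n w D g i) c.castSucc.castSucc =
      if (c : ℕ) = i then 2 ^ (w * n) else 0 := by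
  have hc := c.2
  simp only [zvec, latRow, Fin.val_castSucc]
  rw [List.getD_append _ _ _ _ (by simp; omega), List.getD_eq_getElem _ _ (by simp; omega)]
  simp

theorem zvec_latRow_re (n w D : ℕ) (g : ℤ × ℤ) (i : ℕ) :
    zvec (D + 3) (latRow n w D g i) (Fin.last (D + 1)).castSucc =
      2 ^ (w * (n - i) + w) * (gpow g i).1 := by
  simp only [zvec, latRow, Fin.val_castSucc, Fin.val_last]
  rw [List.getD_append_right _ _ _ _ (by simp)]
  simp

theorem zvec_latRow_im (n w D : ℕ) (g : ℤ × ℤ) (i : ℕ) :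
    zvec (D + 3) (latRow n w D g i) (Fin.last (D + 2)) =
      2 ^ (w * (n - i) + w) * (gpow g i).2 := by
  simp only [zvec, latRow, Fin.val_last]
  rw [List.getD_append_right _ _ _ _ (by simp)]
  simp

theorem comb_lt (n w D : ℕ) (g : ℤ × ℤ) (p : ℕ → ℤ) (c : Fin (D + 1)) :
    comb n w D g p c.castSucc.castSucc = p c * 2 ^ (w * n) := by
  rw [comb, Finset.sum_apply, Finset.sum_eq_single (c : ℕ)]
  · simp [zvec_latRow_lt]
  · intro i _ hi
    simp [zvec_latRow_lt, hi.symm]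
  · intro h; exact absurd (Finset.mem_range.2 c.2) h

theorem comb_re (n w D : ℕ) (g : ℤ × ℤ) (p : ℕ → ℤ) :
    comb n w D g p (Fin.last (D + 1)).castSucc =
      ∑ i ∈ Finset.range (D + 1), p i * (2 ^ (w * (n - i) + w) * (gpow g i).1) := by
  rw [comb, Finset.sum_apply]
  simp [zvec_latRow_re]

theorem comb_im (n w D : ℕ) (g : ℤ × ℤ) (p : ℕ → ℤ) :
    comb n w D g p (Fin.last (D + 2)) =
      ∑ i ∈ Finset.range (D + 1), p i * (2 ^ (w * (n - i) + w) * (gpow g i).2) := by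
  rw [comb, Finset.sum_apply]
  simp [zvec_latRow_im]

theorem toC_gmul (x y : ℤ × ℤ) : toC (gmul x y) = toC x * toC y := by
  apply Complex.ext <;> simp [toC, gmul]

theorem toC_gpow (g : ℤ × ℤ) (i : ℕ) : toC (gpow g i) = toC g ^ i := by
  induction i with
  | zero => apply Complex.ext <;> simp [toC, gpow]
  | succ i ih =>
    rw [gpow, Function.iterate_succ_apply']
    rw [gpow] at ih
    rw [toC_gmul, ih, pow_succ']

/-- the polynomial with coefficients `p 0, …, p D` -/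
noncomputable def polyOf (D : ℕ) (p : ℕ → ℤ) : ℤ[X] :=
  ∑ i ∈ Finset.range (D + 1), C (p i) * X ^ i

theorem coeff_polyOf (D : ℕ) (p : ℕ → ℤ) (k : ℕ) :
    (polyOf D p).coeff k = if k < D + 1 then p k else 0 := by
  rw [polyOf, finsetSum_coeff]
  simp only [coeff_C_mul, coeff_X_pow, mul_ite, mul_one, mul_zero]
  split_ifs with h
  · rw [Finset.sum_eq_single k]
    · simp
    · intro b _ hb; simp [hb.symm]
    · intro h'; exact absurd (Finset.mem_range.2 h) h'
  · refine Finset.sum_eq_zero fun i hi => ?_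
    have := Finset.mem_range.1 hi
    rw [if_neg (by omega)]

theorem natDegree_polyOf_le (D : ℕ) (p : ℕ → ℤ) : (polyOf D p).natDegree ≤ D := by
  rw [natDegree_le_iff_coeff_eq_zero]
  intro k hk
  rw [coeff_polyOf, if_neg (by omega)]

theorem polyOf_coeff {h : ℤ[X]} {D : ℕ} (hD : h.natDegree ≤ D) : polyOf D h.coeff = h := by
  ext k
  rw [coeff_polyOf]
  split_ifs with hk
  · rfl
  · rw [coeff_eq_zero_of_natDegree_lt (by omega)]

theorem aeval_polyOf (D : ℕ) (p : ℕ → ℤ) (z : ℂ) :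
    aeval z (polyOf D p) = ∑ i ∈ Finset.range (D + 1), (p i : ℂ) * z ^ i := by
  rw [polyOf, map_sum]
  refine Finset.sum_congr rfl fun i _ => ?_
  simp

/-- the square length of a combination of the rows -/
theorem sum_comb_sq {n w D : ℕ} (hD : D ≤ n) (g : ℤ × ℤ) (p : ℕ → ℤ) {z : ℂ}
    (hz : z = toC g / 2 ^ w) :
    ((∑ c, comb n w D g p c ^ 2 : ℤ) : ℝ) = 2 ^ (2 * (w * n)) *
      (∑ i ∈ Finset.range (D + 1), (p i : ℝ) ^ 2 + (2 ^ w * ‖aeval z (polyOf D p)‖) ^ 2) := by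
  rw [Fin.sum_univ_castSucc, Fin.sum_univ_castSucc]
  have h1 : ∑ i : Fin (D + 1), comb n w D g p i.castSucc.castSucc ^ 2 =
      2 ^ (2 * (w * n)) * ∑ i ∈ Finset.range (D + 1), p i ^ 2 := by
    rw [← Fin.sum_univ_eq_sum_range (fun i => p i ^ 2), Finset.mul_sum]
    refine Finset.sum_congr rfl fun c _ => ?_
    rw [comb_lt, mul_pow, ← pow_mul, mul_comm 2 (w * n), mul_comm]
  set Z : ℂ := ∑ i ∈ Finset.range (D + 1), (p i : ℂ) * (2 ^ (w * (n - i) + w) * toC g ^ i) with hZ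
  have hre : ((comb n w D g p (Fin.last (D + 1)).castSucc : ℤ) : ℝ) = Z.re := by
    rw [comb_re, hZ, Complex.re_sum, Int.cast_sum]
    refine Finset.sum_congr rfl fun i _ => ?_
    have e1 : (p i : ℂ) * (2 ^ (w * (n - i) + w) * toC (gpow g i)) =
        (((p i : ℝ) * 2 ^ (w * (n - i) + w) : ℝ) : ℂ) * toC (gpow g i) := by
      push_cast; ring
    rw [← toC_gpow, e1, Complex.re_ofReal_mul]
    push_cast
    simp only [toC]
    ring
  have him : ((comb n w D g p (Fin.last (D + 2)) : ℤ) : ℝ) = Z.im := by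
    rw [comb_im, hZ, Complex.im_sum, Int.cast_sum]
    refine Finset.sum_congr rfl fun i _ => ?_
    have e1 : (p i : ℂ) * (2 ^ (w * (n - i) + w) * toC (gpow g i)) =
        (((p i : ℝ) * 2 ^ (w * (n - i) + w) : ℝ) : ℂ) * toC (gpow g i) := by
      push_cast; ring
    rw [← toC_gpow, e1, Complex.im_ofReal_mul]
    push_cast
    simp only [toC]
    ring
  have hZz : Z = 2 ^ (w * n) * (2 ^ w * aeval z (polyOf D p)) := by
    rw [aeval_polyOf, hZ, Finset.mul_sum, Finset.mul_sum]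
    refine Finset.sum_congr rfl fun i hi => ?_
    have hi' : i ≤ n := by have := Finset.mem_range.1 hi; omega
    have h2 : (2 : ℂ) ^ w ≠ 0 := pow_ne_zero _ two_ne_zero
    have h3 : (2 : ℂ) ^ (w * n) = 2 ^ (w * (n - i)) * (2 ^ w) ^ i := by
      rw [← pow_mul, ← pow_add, ← mul_add, Nat.sub_add_cancel hi']
    rw [hz, div_pow, h3, pow_add]
    field_simp
  have hsq : ((comb n w D g p (Fin.last (D + 1)).castSucc : ℤ) : ℝ) ^ 2 +
      ((comb n w D g p (Fin.last (D + 2)) : ℤ) : ℝ) ^ 2 =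
      2 ^ (2 * (w * n)) * (2 ^ w * ‖aeval z (polyOf D p)‖) ^ 2 := by
    rw [hre, him]
    have h4 : Z.re ^ 2 + Z.im ^ 2 = ‖Z‖ ^ 2 := by
      rw [Complex.sq_norm, Complex.normSq_apply]; ring
    rw [h4, hZz, norm_mul, norm_mul, norm_pow, norm_pow, Complex.norm_ofNat, mul_pow, ← pow_mul,
      mul_comm (w * n) 2]
  rw [h1]
  push_cast
  rw [add_assoc, hsq]
  ring

/-! ### perturbation -/

theorem pow_sub_pow_norm_le {z α : ℂ} {M δ : ℝ} (hM : 1 ≤ M) (hz : ‖z‖ ≤ M) (hα : ‖α‖ ≤ M)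
    (hδ : ‖z - α‖ ≤ δ) (i : ℕ) : ‖z ^ i - α ^ i‖ ≤ i * δ * M ^ i := by
  have hδ0 : 0 ≤ δ := (norm_nonneg _).trans hδ
  induction i with
  | zero => simp
  | succ i ih =>
    have h1 : z ^ (i + 1) - α ^ (i + 1) = z * (z ^ i - α ^ i) + (z - α) * α ^ i := by ring
    rw [h1]
    have hMi : 1 ≤ M ^ i := one_le_pow₀ hM
    calc ‖z * (z ^ i - α ^ i) + (z - α) * α ^ i‖
        ≤ ‖z‖ * ‖z ^ i - α ^ i‖ + ‖z - α‖ * ‖α‖ ^ i := by
          refine (norm_add_le _ _).trans ?_
          rw [norm_mul, norm_mul, norm_pow]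
      _ ≤ M * (i * δ * M ^ i) + δ * M ^ i := by
          refine add_le_add (mul_le_mul hz ih (norm_nonneg _) (by linarith))
            (mul_le_mul hδ (pow_le_pow_left₀ (norm_nonneg _) hα i) (by positivity) hδ0)
      _ ≤ M * (i * δ * M ^ i) + δ * (M * M ^ i) := by
          have : M ^ i ≤ M * M ^ i := by nlinarith
          have := mul_le_mul_of_nonneg_left this hδ0
          linarith
      _ = ((i + 1 : ℕ) : ℝ) * δ * M ^ (i + 1) := by push_cast; ring

theorem aeval_sub_aeval_norm_le {Q : ℤ[X]} {n : ℕ} (hQ : Q.natDegree ≤ n) {z α : ℂ} {M δ T : ℝ}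
    (hM : 1 ≤ M) (hz : ‖z‖ ≤ M) (hα : ‖α‖ ≤ M) (hδ : ‖z - α‖ ≤ δ)
    (hT : ∑ i ∈ Finset.range (n + 1), |(Q.coeff i : ℝ)| ≤ T) :
    ‖aeval z Q - aeval α Q‖ ≤ T * (n * δ * M ^ n) := by
  have hδ0 : 0 ≤ δ := (norm_nonneg _).trans hδ
  rw [aeval_eq_sum_range' (Nat.lt_succ_of_le hQ), aeval_eq_sum_range' (Nat.lt_succ_of_le hQ),
    ← Finset.sum_sub_distrib]
  calc ‖∑ i ∈ Finset.range (n + 1), (Q.coeff i • z ^ i - Q.coeff i • α ^ i)‖
      ≤ ∑ i ∈ Finset.range (n + 1), ‖Q.coeff i • z ^ i - Q.coeff i • α ^ i‖ := norm_sum_le _ _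
    _ ≤ ∑ i ∈ Finset.range (n + 1), |(Q.coeff i : ℝ)| * (n * δ * M ^ n) := by
        refine Finset.sum_le_sum fun i hi => ?_
        have hi' : i ≤ n := by have := Finset.mem_range.1 hi; omega
        rw [← smul_sub, zsmul_eq_mul, norm_mul, Complex.norm_intCast]
        refine mul_le_mul_of_nonneg_left ?_ (abs_nonneg _)
        refine (pow_sub_pow_norm_le hM hz hα hδ i).trans ?_
        have h1 : (i : ℝ) ≤ n := by exact_mod_cast hi'
        have h2 : M ^ i ≤ M ^ n := pow_le_pow_right₀ hM hi'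
        exact mul_le_mul (mul_le_mul_of_nonneg_right h1 hδ0) h2 (by positivity) (by positivity)
    _ = (∑ i ∈ Finset.range (n + 1), |(Q.coeff i : ℝ)|) * (n * δ * M ^ n) := by
        rw [Finset.sum_mul]
    _ ≤ T * (n * δ * M ^ n) := mul_le_mul_of_nonneg_right hT (by positivity)

/-! ### the polynomial of a list -/

theorem natDegree_toPoly_le (l : List ℤ) {n : ℕ} (hn : l.length = n + 1) :
    (toPoly l).natDegree ≤ n := by
  rw [natDegree_le_iff_coeff_eq_zero]
  intro k hk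
  rw [coeff_toPoly', List.getD_eq_default _ _ (by omega)]

theorem coeff_toPoly_top (l : List ℤ) {n : ℕ} (hn : l.length = n + 1) :
    (toPoly l).coeff n = l.getLastD 0 := by
  rw [coeff_toPoly']
  have hne : l ≠ [] := by rintro rfl; simp at hn
  rw [List.getD_eq_getElem _ _ (by omega), List.getLastD_eq_getLast?, List.getLast?_eq_some_getLast hne,
    Option.getD_some, List.getLast_eq_getElem]
  congr 1
  omega

theorem natDegree_toPoly (l : List ℤ) {n : ℕ} (hn : l.length = n + 1)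
    (hl : l.getLastD 0 ≠ 0) : (toPoly l).natDegree = n := by
  refine le_antisymm (natDegree_toPoly_le l hn) ?_
  exact le_natDegree_of_ne_zero (by rw [coeff_toPoly_top l hn]; exact hl)

theorem toPoly_ne_zero (l : List ℤ) (hl : l.getLastD 0 ≠ 0) : toPoly l ≠ 0 := by
  have hne : l ≠ [] := by rintro rfl; exact hl rfl
  obtain ⟨n, hn⟩ : ∃ n, l.length = n + 1 := ⟨l.length - 1, by
    have := List.length_pos_iff.2 hne; omega⟩
  intro h
  have := coeff_toPoly_top l hn
  rw [h, coeff_zero] at this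
  exact hl this.symm

theorem natAbs_getD_le_sum (l : List ℤ) (k : ℕ) : (l.getD k 0).natAbs ≤ (l.map Int.natAbs).sum := by
  by_cases hk : k < l.length
  · rw [List.getD_eq_getElem _ _ hk]
    exact List.single_le_sum (by simp) _ (List.mem_map.2 ⟨_, List.getElem_mem hk, rfl⟩)
  · rw [List.getD_eq_default _ _ (by omega)]
    simp

theorem abs_leadingCoeff_le {l : List ℤ} {e : ℕ} (he : (l.map Int.natAbs).sum ≤ 2 ^ e) :
    |((toPoly l).leadingCoeff : ℝ)| ≤ 2 ^ e := by
  have h1 : (toPoly l).leadingCoeff.natAbs ≤ 2 ^ e := by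
    rw [leadingCoeff, coeff_toPoly']
    exact (natAbs_getD_le_sum l _).trans he
  have h2 : (((toPoly l).leadingCoeff.natAbs : ℕ) : ℝ) ≤ 2 ^ e := by exact_mod_cast h1
  rwa [Nat.cast_natAbs, Int.cast_abs] at h2

theorem abs_coeff_sum_le {l : List ℤ} {n : ℕ} (hn : l.length = n + 1)
    (hl : l.getLastD 0 ≠ 0) {e : ℕ} (he : (l.map Int.natAbs).sum ≤ 2 ^ e) {h : ℤ[X]}
    (hh : h ∣ toPoly l) : ∑ i ∈ Finset.range (n + 1), |(h.coeff i : ℝ)| ≤ 2 ^ b1 n e := by
  have hf0 := toPoly_ne_zero l hl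
  have hb := divisor_bound hf0 hh (R := 2 ^ e) (by positivity)
    (fun β hβ => root_bound hl he hβ)
  rw [natDegree_toPoly l hn hl] at hb
  have he1 : (1 : ℝ) ≤ 2 ^ e := one_le_pow₀ (by norm_num)
  have h2 : ∀ i, |(h.coeff i : ℝ)| ≤ 2 ^ e * 2 ^ ((e + 1) * n) := by
    intro i
    refine (hb i).trans (mul_le_mul (abs_leadingCoeff_le he) ?_ (by positivity) (by positivity))
    rw [pow_mul]
    refine pow_le_pow_left₀ (by positivity) ?_ n
    rw [pow_succ]; linarith
  have h3 : ((n + 1 : ℕ) : ℝ) ≤ 2 ^ n := by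
    have : n + 1 ≤ 2 ^ n := Nat.lt_two_pow_self
    exact_mod_cast this
  calc ∑ i ∈ Finset.range (n + 1), |(h.coeff i : ℝ)|
      ≤ ∑ _i ∈ Finset.range (n + 1), (2 : ℝ) ^ e * 2 ^ ((e + 1) * n) :=
        Finset.sum_le_sum fun i _ => h2 i
    _ = ((n + 1 : ℕ) : ℝ) * (2 ^ e * 2 ^ ((e + 1) * n)) := by
        rw [Finset.sum_const, Finset.card_range, nsmul_eq_mul]
    _ ≤ 2 ^ n * (2 ^ e * 2 ^ ((e + 1) * n)) := mul_le_mul_of_nonneg_right h3 (by positivity)
    _ = 2 ^ b1 n e := by rw [← pow_add, ← pow_add, b1]; congr 1; ring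

theorem le_pW (n e : ℕ) : c0 n e ≤ pW n e := by unfold pW; omega

theorem sixteen_mul_le (n e : ℕ) : (16 : ℝ) * n ≤ 2 ^ pW n e := by
  have h1 : 16 * n ≤ 2 ^ pW n e := by
    calc 16 * n ≤ 2 ^ 4 * 2 ^ n := Nat.mul_le_mul (by norm_num) Nat.lt_two_pow_self.le
      _ = 2 ^ (4 + n) := by rw [pow_add]
      _ ≤ 2 ^ pW n e := by
        refine Nat.pow_le_pow_right (by norm_num) ?_
        have := le_pW n e
        unfold c0 at this
        nlinarith [Nat.zero_le ((e + 1) * n)]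
  exact_mod_cast h1

/-- the standing assumptions -/
structure Ctx (l : List ℤ) (n e : ℕ) (α : ℂ) (g : ℤ × ℤ) : Prop where
  hn : l.length = n + 1
  h1 : 1 ≤ n
  hl : l.getLastD 0 ≠ 0
  he : (l.map Int.natAbs).sum ≤ 2 ^ e
  hα : aeval α (toPoly l) = 0
  hg : ‖α * 2 ^ pW n e - toC g‖ ≤ 16 * n

namespace Ctx

variable {l : List ℤ} {n e : ℕ} {α : ℂ} {g : ℤ × ℤ} (c : Ctx l n e α g)
include c

theorem hz : ‖toC g / 2 ^ pW n e - α‖ ≤ 16 * n / 2 ^ pW n e := by
  have h2 : (0 : ℝ) < 2 ^ pW n e := by positivity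
  have h3 : (2 : ℂ) ^ pW n e ≠ 0 := pow_ne_zero _ two_ne_zero
  have h4 : toC g / 2 ^ pW n e - α = -(α * 2 ^ pW n e - toC g) / 2 ^ pW n e := by
    field_simp; ring
  rw [h4, norm_div, norm_neg, norm_pow, Complex.norm_ofNat]
  exact div_le_div_of_nonneg_right c.hg h2.le

theorem norm_α : ‖α‖ ≤ 2 ^ e := root_bound c.hl c.he c.hα

theorem norm_z : ‖toC g / 2 ^ pW n e‖ ≤ 2 ^ (e + 1) := by
  have h1 := c.hz
  have h2 := c.norm_α
  have h3 : (16 : ℝ) * n / 2 ^ pW n e ≤ 1 :=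
    (div_le_one (by positivity)).2 (sixteen_mul_le n e)
  have h4 : ‖toC g / 2 ^ pW n e‖ ≤ ‖toC g / 2 ^ pW n e - α‖ + ‖α‖ := by
    have := norm_add_le (toC g / 2 ^ pW n e - α) α
    rwa [sub_add_cancel] at this
  have h5 : (1 : ℝ) ≤ 2 ^ e := one_le_pow₀ (by norm_num)
  rw [pow_succ]
  linarith

/-- values at `α` and at its approximation -/
theorem perturb {Q : ℤ[X]} (hQ : Q.natDegree ≤ n) {T : ℝ}
    (hT : ∑ i ∈ Finset.range (n + 1), |(Q.coeff i : ℝ)| ≤ T) :
    ‖aeval (toC g / 2 ^ pW n e) Q - aeval α Q‖ * 2 ^ pW n e ≤ T * 2 ^ c0 n e := by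
  have hT0 : 0 ≤ T := (Finset.sum_nonneg fun i _ => abs_nonneg _).trans hT
  have h5 : (1 : ℝ) ≤ 2 ^ (e + 1) := one_le_pow₀ (by norm_num)
  have hα' : ‖α‖ ≤ 2 ^ (e + 1) := by
    refine c.norm_α.trans (pow_le_pow_right₀ (by norm_num) (by omega))
  have h6 := aeval_sub_aeval_norm_le hQ h5 c.norm_z hα' c.hz hT
  have h7 : (0 : ℝ) < 2 ^ pW n e := by positivity
  calc ‖aeval (toC g / 2 ^ pW n e) Q - aeval α Q‖ * 2 ^ pW n e
      ≤ (T * (n * (16 * n / 2 ^ pW n e) * (2 ^ (e + 1)) ^ n)) * 2 ^ pW n e :=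
        mul_le_mul_of_nonneg_right h6 h7.le
    _ = T * (16 * (n * n) * 2 ^ ((e + 1) * n)) := by
        rw [← pow_mul]
        field_simp
    _ ≤ T * 2 ^ c0 n e := by
        refine mul_le_mul_of_nonneg_left ?_ hT0
        have h8 : 16 * (n * n) * 2 ^ ((e + 1) * n) ≤ 2 ^ c0 n e := by
          have h9 : n ≤ 2 ^ n := Nat.lt_two_pow_self.le
          calc 16 * (n * n) * 2 ^ ((e + 1) * n) ≤
              2 ^ 4 * (2 ^ n * 2 ^ n) * 2 ^ ((e + 1) * n) :=
                Nat.mul_le_mul (Nat.mul_le_mul (by norm_num) (Nat.mul_le_mul h9 h9)) le_rfl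
            _ = 2 ^ c0 n e := by
                rw [← pow_add, ← pow_add, ← pow_add]; congr 1; unfold c0; ring
        exact_mod_cast h8

/-- nonzero values of integer polynomials at `α` -/
theorem lower {Q : ℤ[X]} (hQ : Q.natDegree ≤ n)
    (hT : ∑ i ∈ Finset.range (n + 1), |(Q.coeff i : ℝ)| ≤ 2 ^ tau n e)
    (hQα : aeval α Q ≠ 0) : 2 ≤ 2 ^ pU n e * ‖aeval α Q‖ := by
  have h1 := norm_lower (toPoly_ne_zero l c.hl) (natDegree_toPoly_le l c.hn) hQ
    (H := 2 ^ e) (R := 2 ^ e) (T := 2 ^ tau n e) (one_le_pow₀ (by norm_num))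
    (one_le_pow₀ (by norm_num)) (one_le_pow₀ (by norm_num)) (abs_leadingCoeff_le c.he)
    (fun β hβ => root_bound c.hl c.he hβ) hT c.hα hQα
  have h2 : ((2 : ℝ) ^ e) ^ n * (2 ^ tau n e * (2 ^ e) ^ n) ^ n * 2 = 2 ^ pU n e := by
    rw [← pow_mul, ← pow_add, ← pow_mul, ← pow_add, ← pow_succ, pU]
  calc (2 : ℝ) = 1 * 2 := by norm_num
    _ ≤ (((2 : ℝ) ^ e) ^ n * (2 ^ tau n e * (2 ^ e) ^ n) ^ n * ‖aeval α Q‖) * 2 :=
        mul_le_mul_of_nonneg_right h1 (by norm_num)
    _ = 2 ^ pU n e * ‖aeval α Q‖ := by rw [← h2]; ring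

end Ctx

theorem sum_sq_le_sq_sum {ι : Type*} (s : Finset ι) (f : ι → ℝ) (hf : ∀ i ∈ s, 0 ≤ f i) :
    ∑ i ∈ s, f i ^ 2 ≤ (∑ i ∈ s, f i) ^ 2 := by
  calc ∑ i ∈ s, f i ^ 2 ≤ ∑ i ∈ s, f i * ∑ j ∈ s, f j := by
        refine Finset.sum_le_sum fun i hi => ?_
        rw [sq]
        exact mul_le_mul_of_nonneg_left (Finset.single_le_sum hf hi) (hf i hi)
    _ = (∑ i ∈ s, f i) ^ 2 := by rw [← Finset.sum_mul, sq]

namespace Ctx

variable {l : List ℤ} {n e : ℕ} {α : ℂ} {g : ℤ × ℤ} (c : Ctx l n e α g)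
include c

/-- the vector of the minimal polynomial is short -/
theorem comb_minpoly_le {h : ℤ[X]} (hh : h ∣ toPoly l) (hα0 : aeval α h = 0) {D : ℕ}
    (hD : h.natDegree ≤ D) (hDn : D ≤ n) :
    ∑ i, comb n (pW n e) D g h.coeff i ^ 2 ≤ 2 ^ (2 * (pW n e * n) + s0 n e) := by
  have hsum := abs_coeff_sum_le c.hn c.hl c.he hh
  have hpert := c.perturb (hD.trans hDn) hsum
  rw [hα0, sub_zero] at hpert
  have h1 : ∑ i ∈ Finset.range (D + 1), (h.coeff i : ℝ) ^ 2 ≤ (2 ^ b1 n e) ^ 2 := by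
    calc ∑ i ∈ Finset.range (D + 1), (h.coeff i : ℝ) ^ 2
        = ∑ i ∈ Finset.range (D + 1), |(h.coeff i : ℝ)| ^ 2 := by
          refine Finset.sum_congr rfl fun i _ => (sq_abs _).symm
      _ ≤ (∑ i ∈ Finset.range (D + 1), |(h.coeff i : ℝ)|) ^ 2 :=
          sum_sq_le_sq_sum _ _ fun i _ => abs_nonneg _
      _ ≤ (∑ i ∈ Finset.range (n + 1), |(h.coeff i : ℝ)|) ^ 2 := by
          refine pow_le_pow_left₀ (Finset.sum_nonneg fun i _ => abs_nonneg _) ?_ 2
          exact Finset.sum_le_sum_of_subset_of_nonneg (Finset.range_subset_range.2 (by omega))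
            (fun i _ _ => abs_nonneg _)
      _ ≤ (2 ^ b1 n e) ^ 2 :=
          pow_le_pow_left₀ (Finset.sum_nonneg fun i _ => abs_nonneg _) hsum 2
  have h2 : (2 ^ pW n e * ‖aeval (toC g / 2 ^ pW n e) h‖) ^ 2 ≤ (2 ^ (b1 n e + c0 n e)) ^ 2 := by
    refine pow_le_pow_left₀ (by positivity) ?_ 2
    rw [mul_comm, pow_add]; exact hpert
  have h3 := sum_comb_sq hDn g h.coeff rfl (w := pW n e)
  rw [polyOf_coeff hD] at h3
  have h4 : ((∑ i, comb n (pW n e) D g h.coeff i ^ 2 : ℤ) : ℝ) ≤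
      2 ^ (2 * (pW n e * n) + s0 n e) := by
    rw [h3, pow_add]
    refine mul_le_mul_of_nonneg_left ?_ (by positivity)
    have h5 : ((2 : ℝ) ^ b1 n e) ^ 2 ≤ (2 ^ (b1 n e + c0 n e)) ^ 2 :=
      pow_le_pow_left₀ (by positivity) (pow_le_pow_right₀ (by norm_num) (by omega)) 2
    have h6 : ((2 : ℝ) ^ (b1 n e + c0 n e)) ^ 2 + (2 ^ (b1 n e + c0 n e)) ^ 2 = 2 ^ s0 n e := by
      rw [s0, ← pow_mul, mul_comm (b1 n e + c0 n e) 2]; ring
    linarith
  exact_mod_cast h4

/-- short vectors come from polynomials that vanish at `α` -/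
theorem aeval_eq_zero_of_short {D : ℕ} (hDn : D ≤ n) {p : ℕ → ℤ}
    (hp : ∑ i, comb n (pW n e) D g p i ^ 2 ≤ 2 ^ pS n e) : aeval α (polyOf D p) = 0 := by
  have h3 := sum_comb_sq hDn g p rfl (w := pW n e)
  have h4 : ((∑ i, comb n (pW n e) D g p i ^ 2 : ℤ) : ℝ) ≤ 2 ^ pS n e := by exact_mod_cast hp
  rw [h3] at h4
  have h5 : ∑ i ∈ Finset.range (D + 1), (p i : ℝ) ^ 2 +
      (2 ^ pW n e * ‖aeval (toC g / 2 ^ pW n e) (polyOf D p)‖) ^ 2 ≤ 2 ^ (n + s0 n e) := by
    have h6 : (2 : ℝ) ^ pS n e = 2 ^ (2 * (pW n e * n)) * 2 ^ (n + s0 n e) := by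
      rw [← pow_add, pS]; congr 1; ring
    rw [h6] at h4
    exact le_of_mul_le_mul_left h4 (by positivity)
  have hsq : ∀ x : ℝ, 0 ≤ x → x ^ 2 ≤ 2 ^ (n + s0 n e) → x ≤ 2 ^ (n + s0 n e) := by
    intro x hx hx2
    by_contra hcon
    push Not at hcon
    have : (1 : ℝ) ≤ 2 ^ (n + s0 n e) := one_le_pow₀ (by norm_num)
    nlinarith
  have h7 : ∀ i ∈ Finset.range (D + 1), |(p i : ℝ)| ≤ 2 ^ (n + s0 n e) := by
    intro i hi
    refine hsq _ (abs_nonneg _) ?_
    rw [sq_abs]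
    have := Finset.single_le_sum (f := fun i => (p i : ℝ) ^ 2) (fun i _ => sq_nonneg _) hi
    have h8 := sq_nonneg (2 ^ pW n e * ‖aeval (toC g / 2 ^ pW n e) (polyOf D p)‖)
    linarith
  have h9 : 2 ^ pW n e * ‖aeval (toC g / 2 ^ pW n e) (polyOf D p)‖ ≤ 2 ^ (n + s0 n e) := by
    refine hsq _ (by positivity) ?_
    have : 0 ≤ ∑ i ∈ Finset.range (D + 1), (p i : ℝ) ^ 2 := Finset.sum_nonneg fun i _ => sq_nonneg _
    linarith
  have hsum : ∑ i ∈ Finset.range (n + 1), |((polyOf D p).coeff i : ℝ)| ≤ 2 ^ tau n e := by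
    have h10 : ((n + 1 : ℕ) : ℝ) ≤ 2 ^ n := by
      have : n + 1 ≤ 2 ^ n := Nat.lt_two_pow_self
      exact_mod_cast this
    calc ∑ i ∈ Finset.range (n + 1), |((polyOf D p).coeff i : ℝ)|
        ≤ ∑ _i ∈ Finset.range (n + 1), (2 : ℝ) ^ (n + s0 n e) := by
          refine Finset.sum_le_sum fun i _ => ?_
          rw [coeff_polyOf]
          split_ifs with hi
          · exact h7 i (Finset.mem_range.2 hi)
          · simp only [Int.cast_zero, abs_zero]; positivity
      _ = ((n + 1 : ℕ) : ℝ) * 2 ^ (n + s0 n e) := by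
          rw [Finset.sum_const, Finset.card_range, nsmul_eq_mul]
      _ ≤ 2 ^ n * 2 ^ (n + s0 n e) := mul_le_mul_of_nonneg_right h10 (by positivity)
      _ = 2 ^ tau n e := by rw [← pow_add, tau]; congr 1; ring
  have hdeg : (polyOf D p).natDegree ≤ n := (natDegree_polyOf_le D p).trans hDn
  by_contra hne
  have hlow := c.lower hdeg hsum hne
  have hpert := c.perturb hdeg hsum
  -- `2 ^ w |P(α)| ≤ 2 ^ (tau + c0 + 1)`
  have h11 : 2 ^ pW n e * ‖aeval α (polyOf D p)‖ ≤ 2 ^ (tau n e + c0 n e + 1) := by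
    have h12 : ‖aeval α (polyOf D p)‖ ≤ ‖aeval (toC g / 2 ^ pW n e) (polyOf D p)‖ +
        ‖aeval (toC g / 2 ^ pW n e) (polyOf D p) - aeval α (polyOf D p)‖ := by
      have := norm_sub_le (aeval (toC g / 2 ^ pW n e) (polyOf D p))
        (aeval (toC g / 2 ^ pW n e) (polyOf D p) - aeval α (polyOf D p))
      rwa [sub_sub_cancel] at this
    have h13 : (0 : ℝ) < 2 ^ pW n e := by positivity
    have h14 : (2 : ℝ) ^ (n + s0 n e) ≤ 2 ^ (tau n e + c0 n e) :=
      pow_le_pow_right₀ (by norm_num) (by unfold tau; omega)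
    have h15 : (2 : ℝ) ^ (tau n e + c0 n e + 1) =
        2 ^ (tau n e + c0 n e) + 2 ^ tau n e * 2 ^ c0 n e := by
      rw [pow_succ, pow_add]; ring
    rw [h15]
    have h16 := mul_le_mul_of_nonneg_left h12 h13.le
    rw [mul_add] at h16
    linarith [mul_comm (‖aeval (toC g / 2 ^ pW n e) (polyOf D p) - aeval α (polyOf D p)‖)
      ((2 : ℝ) ^ pW n e)]
  have h17 : (2 : ℝ) ^ pW n e = 2 ^ pU n e * 2 ^ (tau n e + c0 n e + 1) := by
    rw [← pow_add, pW]; congr 1; ring
  rw [h17] at h11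
  have h18 : (0 : ℝ) < 2 ^ (tau n e + c0 n e + 1) := by positivity
  nlinarith

/-- square lengths of the rows -/
theorem dotZ_latRow_le {D i : ℕ} (hDn : D ≤ n) (hi : i < D + 1) :
    dotZ (latRow n (pW n e) D g i) (latRow n (pW n e) D g i) ≤ 2 ^ pX n e := by
  have hlen : (latRow n (pW n e) D g i).length = D + 3 := by simp [latRow]
  rw [dotZ_self hlen]
  have h1 : zvec (D + 3) (latRow n (pW n e) D g i) =
      comb n (pW n e) D g (fun j => if j = i then 1 else 0) := by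
    rw [comb, Finset.sum_eq_single i]
    · simp
    · intro j _ hj; simp [hj]
    · intro h; exact absurd (Finset.mem_range.2 hi) h
  rw [h1]
  have h3 := sum_comb_sq hDn g (fun j => if j = i then 1 else 0) rfl (w := pW n e)
  have h4 : ∑ j ∈ Finset.range (D + 1), (((if j = i then 1 else 0 : ℤ)) : ℝ) ^ 2 = 1 := by
    rw [Finset.sum_eq_single i]
    · simp
    · intro j _ hj; simp [hj]
    · intro h; exact absurd (Finset.mem_range.2 hi) h
  have h5 : ‖aeval (toC g / 2 ^ pW n e) (polyOf D (fun j => if j = i then 1 else 0))‖ ≤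
      2 ^ ((e + 1) * n) := by
    rw [aeval_polyOf, Finset.sum_eq_single i]
    · simp only [if_true, Int.cast_one, one_mul, norm_pow]
      calc ‖toC g / 2 ^ pW n e‖ ^ i ≤ (2 ^ (e + 1)) ^ i :=
            pow_le_pow_left₀ (norm_nonneg _) c.norm_z i
        _ ≤ 2 ^ ((e + 1) * n) := by
            rw [← pow_mul]
            exact pow_le_pow_right₀ (by norm_num) (Nat.mul_le_mul_left _ (by omega))
    · intro j _ hj; simp [hj]
    · intro h; exact absurd (Finset.mem_range.2 hi) h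
  rw [h4] at h3
  have h6 : ((∑ i_1, comb n (pW n e) D g (fun j => if j = i then 1 else 0) i_1 ^ 2 : ℤ) : ℝ) ≤
      2 ^ pX n e := by
    rw [h3]
    have h7 : (2 ^ pW n e * ‖aeval (toC g / 2 ^ pW n e)
        (polyOf D (fun j => if j = i then 1 else 0))‖) ^ 2 ≤
        (2 ^ pW n e * 2 ^ ((e + 1) * n)) ^ 2 :=
      pow_le_pow_left₀ (by positivity) (mul_le_mul_of_nonneg_left h5 (by positivity)) 2
    have h8 : (1 : ℝ) ≤ (2 ^ pW n e * 2 ^ ((e + 1) * n)) ^ 2 := by
      rw [← pow_add, ← pow_mul]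
      exact one_le_pow₀ (by norm_num)
    have h9 : (2 : ℝ) ^ pX n e = 2 ^ (2 * (pW n e * n)) *
        ((2 ^ pW n e * 2 ^ ((e + 1) * n)) ^ 2 + (2 ^ pW n e * 2 ^ ((e + 1) * n)) ^ 2) := by
      rw [← two_mul, ← pow_add, ← pow_mul, ← pow_succ', ← pow_add, pX]
      congr 1; ring
    rw [h9]
    exact mul_le_mul_of_nonneg_left (by linarith) (by positivity)
  exact_mod_cast h6

end Ctx

theorem length_lattice (n w D : ℕ) (g : ℤ × ℤ) : (lattice n w D g).length = D + 1 := by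
  simp [lattice]

theorem lattice_getD (n w D : ℕ) (g : ℤ × ℤ) {i : ℕ} (hi : i < D + 1) :
    (lattice n w D g).getD i [] = latRow n w D g i := by
  rw [List.getD_eq_getElem _ _ (by rw [length_lattice]; exact hi)]
  simp [lattice]

theorem linearIndependent_lattice (n w D : ℕ) (g : ℤ × ℤ) :
    LinearIndependent ℤ (fun i : Fin (lattice n w D g).length =>
      zvec (D + 3) ((lattice n w D g).getD i [])) := by
  rw [Fintype.linearIndependent_iff]
  intro c hc i
  have hlen := length_lattice n w D g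
  set p : ℕ → ℤ := fun j => if h : j < (lattice n w D g).length then c ⟨j, h⟩ else 0 with hp
  have h1 : comb n w D g p = 0 := by
    rw [← hc, comb,
      ← Fin.sum_univ_eq_sum_range (fun i => p i • zvec (D + 3) (latRow n w D g i)) (D + 1)]
    refine Fintype.sum_equiv (finCongr hlen.symm) _ _ ?_
    intro j
    have hj : (j : ℕ) < (lattice n w D g).length := by rw [hlen]; exact j.2
    simp only [hp, finCongr_apply, Fin.val_cast]
    rw [dif_pos hj, lattice_getD _ _ _ _ j.2]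
    rfl
  have hi : (i : ℕ) < D + 1 := by have := i.2; omega
  have h2 := comb_lt n w D g p ⟨i, hi⟩
  rw [h1] at h2
  simp only [Pi.zero_apply] at h2
  have h3 : p i = 0 := by
    rcases mul_eq_zero.1 h2.symm with h | h
    · exact h
    · exact absurd h (by positivity)
  simpa [hp] using h3

theorem divN_mul (q : ℤ) {m : ℕ} (hm : 0 < m) : divN (q * m) m = q := by
  have hm' : (0 : ℤ) < m := by exact_mod_cast hm
  unfold divN
  rw [Int.natAbs_mul, Int.natAbs_natCast, Nat.mul_div_cancel _ hm]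
  by_cases hq : q < 0
  · have : q * (m : ℤ) < 0 := mul_neg_of_neg_of_pos hq hm'
    simp only [this, decide_true, cond_true]
    omega
  · have : ¬ q * (m : ℤ) < 0 := by
      push Not at hq ⊢
      positivity
    simp only [this, decide_false, cond_false]
    omega

theorem lllT_mono {n n' x : ℕ} (h : n ≤ n') : lllT n x ≤ lllT n' x := by
  unfold lllT; gcongr

theorem lllK_mono {n n' m m' x : ℕ} (h : n ≤ n') (h' : m ≤ m') : lllK n m x ≤ lllK n' m' x := by
  unfold lllK; gcongr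

theorem find_map_range {β : Type} (n : ℕ) (f : ℕ → β) (P : β → Bool) {k : ℕ} (hk : k < n)
    (h1 : P (f k) = true) (h2 : ∀ j < k, P (f j) = false) :
    ((List.range n).map f).find? P = some (f k) := by
  rw [List.find?_map]
  have : (List.range n).find? (P ∘ f) = some k := by
    rw [List.find?_range_eq_some]
    refine ⟨h1, List.mem_range.2 hk, ?_⟩
    intro j hj
    simp [h2 j hj]
  rw [this, Option.map_some]

/-- the list computed by `minPol` is plus or minus the primitive minimal polynomial -/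
theorem minPol_spec' (H : LLLSpec) {l : List ℤ} {n : ℕ} (hn : l.length = n + 1) (h1 : 1 ≤ n)
    (hl : l.getLastD 0 ≠ 0) {e : ℕ} (he : (l.map Int.natAbs).sum ≤ 2 ^ e) {K T : ℕ}
    (hT : lllT (n + 1) (pX n e) ≤ T) (hK : lllK (n + 1) (n + 3) (pX n e) ≤ K)
    {α : ℂ} (hα : aeval α (toPoly l) = 0) {g : ℤ × ℤ}
    (hg : ‖α * 2 ^ pW n e - toC g‖ ≤ 16 * n)
    {h : ℤ[X]} (hprim : h.IsPrimitive) (hdeg : 1 ≤ h.natDegree)
    (hα0 : aeval α h = 0) (hmin : ∀ p : ℤ[X], aeval α p = 0 → h ∣ p) :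
    (minPol K T (pS n e) n (pW n e) g).length = h.natDegree + 1 ∧
      (toPoly (minPol K T (pS n e) n (pW n e) g) = h ∨
        toPoly (minPol K T (pS n e) n (pW n e) g) = -h) := by
  have c : Ctx l n e α g := ⟨hn, h1, hl, he, hα, hg⟩
  have hf0 := toPoly_ne_zero l hl
  have hh0 : h ≠ 0 := hprim.ne_zero
  have hdvd : h ∣ toPoly l := hmin _ hα
  have hdn : h.natDegree ≤ n := by
    have := natDegree_le_of_dvd hdvd hf0
    rwa [natDegree_toPoly l hn hl] at this
  -- the reduced basis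
  have key : ∀ D ≤ n, (shortVec K T n (pW n e) D g).length = D + 3 ∧
      zvec (D + 3) (shortVec K T n (pW n e) D g) ∈ lat (D + 3) (lattice n (pW n e) D g) ∧
      zvec (D + 3) (shortVec K T n (pW n e) D g) ≠ 0 ∧
      (∀ v ∈ lat (D + 3) (lattice n (pW n e) D g), v ≠ 0 →
        ∑ i, zvec (D + 3) (shortVec K T n (pW n e) D g) i ^ 2 ≤ 2 ^ D * ∑ i, v i ^ 2) ∧
      (∀ v ∈ lat (D + 3) (lattice n (pW n e) D g), ∀ t : ℤ,
        zvec (D + 3) (shortVec K T n (pW n e) D g) = t • v → t = 1 ∨ t = -1) := by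
    intro D hD
    have hlen := length_lattice n (pW n e) D g
    have := H (D + 3) (lattice n (pW n e) D g) (by
        intro h0; rw [h0] at hlen; simp at hlen) (by
        intro b hb
        obtain ⟨i, _, rfl⟩ := List.mem_map.1 hb
        simp [latRow]) (linearIndependent_lattice _ _ _ _) (pX n e) (by
        intro b hb
        obtain ⟨i, hi, rfl⟩ := List.mem_map.1 hb
        exact c.dotZ_latRow_le hD (List.mem_range.1 hi)) K T
        ((by rw [hlen]; exact lllT_mono (by omega) : _ ≤ lllT (n + 1) (pX n e)).trans hT)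
        ((by rw [hlen]; exact lllK_mono (by omega) (by omega) :
          _ ≤ lllK (n + 1) (n + 3) (pX n e)).trans hK)
    rw [hlen, Nat.add_sub_cancel] at this
    exact this
  -- the vectors are long for `D < natDegree h`
  have hlong : ∀ D ≤ n, dotZ (shortVec K T n (pW n e) D g) (shortVec K T n (pW n e) D g) ≤
      ((2 ^ pS n e : ℕ) : ℤ) → ∃ p : ℕ → ℤ,
        zvec (D + 3) (shortVec K T n (pW n e) D g) = comb n (pW n e) D g p ∧
        polyOf D p ≠ 0 ∧ h ∣ polyOf D p := by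
    intro D hD hle
    obtain ⟨k1, k2, k3, -, -⟩ := key D hD
    obtain ⟨p, hp⟩ := mem_lat_iff.1 k2
    rw [dotZ_self k1, hp] at hle
    refine ⟨p, hp, ?_, hmin _ (c.aeval_eq_zero_of_short hD (by exact_mod_cast hle))⟩
    intro h0
    apply k3
    rw [hp, comb]
    refine Finset.sum_eq_zero fun i hi => ?_
    have : (polyOf D p).coeff i = 0 := by rw [h0, coeff_zero]
    rw [coeff_polyOf, if_pos (Finset.mem_range.1 hi)] at this
    rw [this, zero_smul]
  set d := h.natDegree with hd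
  -- the vector for `D = natDegree h` is short
  have hshort : dotZ (shortVec K T n (pW n e) d g) (shortVec K T n (pW n e) d g) ≤
      ((2 ^ pS n e : ℕ) : ℤ) := by
    obtain ⟨k1, -, -, k4, -⟩ := key d hdn
    have hv : comb n (pW n e) d g h.coeff ≠ 0 := by
      intro h0
      have h2 := comb_lt n (pW n e) d g h.coeff (Fin.last d)
      rw [h0] at h2
      simp only [Pi.zero_apply, Fin.val_last] at h2
      rcases mul_eq_zero.1 h2.symm with h3 | h3
      · exact (leadingCoeff_ne_zero.2 hh0) h3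
      · exact absurd h3 (by positivity)
    have h3 := k4 _ (mem_lat_iff.2 ⟨_, rfl⟩) hv
    rw [dotZ_self k1]
    refine h3.trans ?_
    have h4 := c.comb_minpoly_le hdvd hα0 le_rfl hdn
    calc (2 : ℤ) ^ d * ∑ i, comb n (pW n e) d g h.coeff i ^ 2
        ≤ 2 ^ n * 2 ^ (2 * (pW n e * n) + s0 n e) :=
          mul_le_mul (pow_le_pow_right₀ (by norm_num) hdn) h4
            (Finset.sum_nonneg fun i _ => sq_nonneg _) (by positivity)
      _ = ((2 ^ pS n e : ℕ) : ℤ) := by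
          push_cast
          rw [← pow_add, pS]; congr 1; ring
  -- the search finds `natDegree h`
  have hfind : minPol K T (pS n e) n (pW n e) g =
      ((shortVec K T n (pW n e) d g).take (d + 1)).map
        (fun z => divN z (2 ^ (pW n e * n))) := by
    unfold minPol
    rw [find_map_range n (fun d => (d + 1, shortVec K T n (pW n e) (d + 1) g)) _ (k := d - 1)
      (by omega)]
    · simp only [Option.elim_some]
      rw [Nat.sub_add_cancel hdeg]
    · simp only [Nat.sub_add_cancel hdeg]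
      exact decide_eq_true hshort
    · intro j hj
      simp only [decide_eq_false_iff_not]
      intro hle
      obtain ⟨p, -, hp0, hp1⟩ := hlong (j + 1) (by omega) hle
      have h5 := natDegree_le_of_dvd hp1 hp0
      have h6 := natDegree_polyOf_le (j + 1) p
      omega
  obtain ⟨p, hp, hp0, q, hq⟩ := hlong d hdn hshort
  obtain ⟨k1, -, -, -, k5⟩ := key d hdn
  have hq0 : q ≠ 0 := by rintro rfl; exact hp0 (by rw [hq, mul_zero])
  have hqdeg : q.natDegree = 0 := by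
    have h5 := natDegree_polyOf_le d p
    rw [hq, natDegree_mul hh0 hq0] at h5
    omega
  obtain ⟨a, ha⟩ := natDegree_eq_zero.1 hqdeg
  have hpa : ∀ i < d + 1, p i = a * h.coeff i := by
    intro i hi
    have : (polyOf d p).coeff i = (h * C a).coeff i := by rw [ha, ← hq]
    rw [coeff_polyOf, if_pos hi, coeff_mul_C] at this
    rw [this, mul_comm]
  have hcomb : comb n (pW n e) d g p = a • comb n (pW n e) d g h.coeff := by
    rw [comb, comb, Finset.smul_sum]
    refine Finset.sum_congr rfl fun i hi => ?_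
    rw [hpa i (Finset.mem_range.1 hi), mul_smul]
  have ha1 := k5 _ (mem_lat_iff.2 ⟨h.coeff, rfl⟩) a (hp.trans hcomb)
  have hlist : toPoly (minPol K T (pS n e) n (pW n e) g) = polyOf d p := by
    ext k
    rw [hfind, coeff_toPoly', coeff_polyOf]
    split_ifs with hk
    · rw [List.getD_eq_getElem _ _ (by simp [k1]; omega)]
      rw [List.getElem_map, List.getElem_take]
      have h7 : (shortVec K T n (pW n e) d g)[k]'(by omega) = p k * ((2 ^ (pW n e * n) : ℕ) : ℤ) := by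
        have h8 := comb_lt n (pW n e) d g p ⟨k, hk⟩
        rw [← hp] at h8
        simp only [zvec, Fin.val_castSucc] at h8
        rw [List.getD_eq_getElem _ _ (by omega)] at h8
        rw [h8]; push_cast; rfl
      rw [h7, divN_mul _ (by positivity)]
    · rw [List.getD_eq_default _ _ (by simp [k1]; omega)]
  refine ⟨?_, ?_⟩
  · rw [hfind, List.length_map, List.length_take, k1]
    omega
  · rw [hlist, hq, ← ha]
    rcases ha1 with rfl | rfl
    · left; simp
    · right; simp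

/-- the list computed by `minPol` is plus or minus the primitive minimal polynomial -/
theorem minPol_spec (H : LLLSpec) {l : List ℤ} {n : ℕ} (hn : l.length = n + 1) (h1 : 1 ≤ n)
    (hl : l.getLastD 0 ≠ 0) {e : ℕ} (he : (l.map Int.natAbs).sum ≤ 2 ^ e) {K T : ℕ}
    (hT : lllT (n + 1) (pX n e) ≤ T) (hK : lllK (n + 1) (n + 3) (pX n e) ≤ K)
    {α : ℂ} (hα : aeval α (toPoly l) = 0) {g : ℤ × ℤ}
    (hg : ‖α * 2 ^ pW n e - toC g‖ ≤ 16 * n)
    {h : ℤ[X]} (hprim : h.IsPrimitive) (_hpos : 0 < h.leadingCoeff) (hdeg : 1 ≤ h.natDegree)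
    (hα0 : aeval α h = 0) (hmin : ∀ p : ℤ[X], aeval α p = 0 → h ∣ p) :
    (minPol K T (pS n e) n (pW n e) g).length = h.natDegree + 1 ∧
      (toPoly (minPol K T (pS n e) n (pW n e) g) = h ∨
        toPoly (minPol K T (pS n e) n (pW n e) g) = -h) :=
  minPol_spec' H hn h1 hl he hT hK hα hg hprim hdeg hα0 hmin

end Pool.Agent.Helper69.UF
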