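import Pool.Agent.Helper78.UF.Defs

/-!
# Minimal polynomials of roots of integer polynomials, with bounds
-/

set_option autoImplicit false

namespace Pool.Agent.Helper78.UF

open Polynomial

/-- every root `α` of an integer polynomial `f` has a primitive minimal polynomial over `ℤ` -/
theorem exists_minpoly {f : ℤ[X]} (hf : f ≠ 0) {α : ℂ} (hα : aeval α f = 0) :
    ∃ h : ℤ[X], h.IsPrimitive ∧ 0 < h.leadingCoeff ∧ 1 ≤ h.natDegree ∧ aeval α h = 0 ∧
      Irreducible (h.map (Int.castRingHom ℚ)) ∧ (∀ g : ℤ[X], aeval α g = 0 → h ∣ g) := by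
  have haev : ∀ g : ℤ[X], aeval α (g.map (Int.castRingHom ℚ)) = aeval α g := by
    intro g
    rw [← algebraMap_int_eq, aeval_map_algebraMap]
  have hint : IsIntegral ℚ α := by
    have halg : IsAlgebraic ℚ α := by
      refine ⟨f.map (Int.castRingHom ℚ), ?_, ?_⟩
      · rwa [Ne, Polynomial.map_eq_zero_iff (Int.castRingHom ℚ).injective_int]
      · rw [haev]; exact hα
    exact halg.isIntegral
  set m := minpoly ℚ α with hm
  have hm0 : m ≠ 0 := minpoly.ne_zero hint
  have hmirr : Irreducible m := minpoly.irreducible hint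
  -- clear denominators
  obtain ⟨b, hb, hbm⟩ := IsLocalization.integerNormalization_spec (nonZeroDivisors ℤ) m
  set h0 := IsLocalization.integerNormalization (nonZeroDivisors ℤ) m with hh0
  have hb0 : (b : ℚ) ≠ 0 := by
    exact_mod_cast nonZeroDivisors.ne_zero hb
  have hmap0 : h0.map (Int.castRingHom ℚ) = C (b : ℚ) * m := by
    rw [← algebraMap_int_eq, hbm, ← smul_eq_C_mul, Int.cast_smul_eq_zsmul]
  have hh0ne : h0 ≠ 0 := by
    intro h
    rw [h, Polynomial.map_zero] at hmap0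
    exact (mul_ne_zero (C_ne_zero.2 hb0) hm0) hmap0.symm
  have hcont : (h0.content : ℚ) ≠ 0 := by
    have : h0.content ≠ 0 := fun h => hh0ne (content_eq_zero_iff.1 h)
    exact_mod_cast this
  -- the primitive part
  have hmap1 : ∃ c : ℚ, c ≠ 0 ∧ h0.primPart.map (Int.castRingHom ℚ) = C c * m := by
    refine ⟨(h0.content : ℚ)⁻¹ * b, mul_ne_zero (inv_ne_zero hcont) hb0, ?_⟩
    have h1 : h0.map (Int.castRingHom ℚ) =
        C (h0.content : ℚ) * h0.primPart.map (Int.castRingHom ℚ) := by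
      conv_lhs => rw [h0.eq_C_content_mul_primPart]
      simp
    rw [C_mul, mul_assoc, ← hmap0, h1, ← mul_assoc, ← C_mul, inv_mul_cancel₀ hcont, C_1, one_mul]
  -- adjust the sign
  obtain ⟨h, hprim, hpos, c, hc, hmap⟩ : ∃ h : ℤ[X], h.IsPrimitive ∧ 0 < h.leadingCoeff ∧
      ∃ c : ℚ, c ≠ 0 ∧ h.map (Int.castRingHom ℚ) = C c * m := by
    obtain ⟨c, hc, hmap⟩ := hmap1
    have hne : h0.primPart.leadingCoeff ≠ 0 := by
      rw [Ne, leadingCoeff_eq_zero]
      exact (isPrimitive_primPart h0).ne_zero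
    rcases lt_or_gt_of_ne hne with h | h
    · refine ⟨-h0.primPart, isPrimitive_of_dvd (isPrimitive_primPart h0) (by simp), ?_, -c,
        neg_ne_zero.2 hc, ?_⟩
      · rw [leadingCoeff_neg]; omega
      · rw [Polynomial.map_neg, hmap]; simp
    · exact ⟨h0.primPart, isPrimitive_primPart h0, h, c, hc, hmap⟩
  have hassoc : Associated (h.map (Int.castRingHom ℚ)) m := by
    rw [hmap]
    exact associated_unit_mul_left m _ (isUnit_C.2 (isUnit_iff_ne_zero.2 hc))
  refine ⟨h, hprim, hpos, ?_, ?_, ?_, ?_⟩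
  · have h1 : (h.map (Int.castRingHom ℚ)).natDegree = m.natDegree := by
      rw [hmap, natDegree_C_mul hc]
    rw [natDegree_map_eq_of_injective (Int.castRingHom ℚ).injective_int] at h1
    rw [h1]
    exact minpoly.natDegree_pos hint
  · rw [← haev, hmap]
    simp [hm]
  · exact hassoc.symm.irreducible hmirr
  · intro g hg
    rw [IsPrimitive.Int.dvd_iff_map_cast_dvd_map_cast _ _ hprim]
    refine hassoc.dvd.trans ?_
    exact minpoly.dvd ℚ α (by rw [haev]; exact hg)

/-- coefficients of a complex polynomial with bounded roots -/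
theorem coeff_bound_of_roots {p : ℂ[X]} (hp : p ≠ 0) {R : ℝ} (hR : 0 ≤ R)
    (hroots : ∀ β ∈ p.roots, ‖β‖ ≤ R) (i : ℕ) :
    ‖p.coeff i‖ ≤ ‖p.leadingCoeff‖ * (1 + R) ^ p.natDegree := by
  have hlc : p.leadingCoeff ≠ 0 := leadingCoeff_ne_zero.2 hp
  set q : ℂ[X] := C p.leadingCoeff⁻¹ * p with hq
  have hqm : q.Monic := by
    rw [hq, mul_comm]; exact monic_mul_leadingCoeff_inv hp
  have hqdeg : q.natDegree = p.natDegree := by
    rw [hq, natDegree_C_mul (inv_ne_zero hlc)]
  have hqroots : q.roots = p.roots := by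
    rw [hq, roots_C_mul _ (inv_ne_zero hlc)]
  have h1 : ‖(q.map (RingHom.id ℂ)).coeff i‖ ≤ R ^ (q.natDegree - i) * q.natDegree.choose i := by
    refine coeff_le_of_roots_le (f := RingHom.id ℂ) i hqm (IsAlgClosed.splits _) ?_
    intro z hz
    rw [Polynomial.map_id, hqroots] at hz
    exact hroots z hz
  rw [Polynomial.map_id, hqdeg] at h1
  have h2 : p.coeff i = p.leadingCoeff * q.coeff i := by
    rw [hq, coeff_C_mul, ← mul_assoc, mul_inv_cancel₀ hlc, one_mul]
  have h3 : R ^ (p.natDegree - i) * (p.natDegree.choose i : ℝ) ≤ (1 + R) ^ p.natDegree := by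
    by_cases hi : i ≤ p.natDegree
    · rw [add_pow]
      have := Finset.single_le_sum (f := fun m => (1 : ℝ) ^ m * R ^ (p.natDegree - m) *
        (p.natDegree.choose m : ℝ)) (s := Finset.range (p.natDegree + 1))
        (fun m _ => by positivity) (Finset.mem_range.2 (Nat.lt_succ_of_le hi))
      simpa using this
    · rw [Nat.choose_eq_zero_of_lt (by omega)]
      simp only [Nat.cast_zero, mul_zero]
      positivity
  rw [h2, norm_mul]
  exact mul_le_mul_of_nonneg_left (h1.trans h3) (norm_nonneg _)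

theorem aeval_eq_eval_map (g : ℤ[X]) (β : ℂ) :
    aeval β g = (g.map (Int.castRingHom ℂ)).eval β := by
  rw [← algebraMap_int_eq, eval_map_algebraMap]

/-- coefficients of a divisor -/
theorem divisor_bound {f h : ℤ[X]} (hf : f ≠ 0) (hh : h ∣ f) {R : ℝ} (hR : 0 ≤ R)
    (hroots : ∀ β : ℂ, aeval β f = 0 → ‖β‖ ≤ R) (i : ℕ) :
    |(h.coeff i : ℝ)| ≤ |(f.leadingCoeff : ℝ)| * (1 + R) ^ f.natDegree := by
  obtain ⟨q, rfl⟩ := hh
  have hh0 : h ≠ 0 := left_ne_zero_of_mul hf
  have hq0 : q ≠ 0 := right_ne_zero_of_mul hf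
  have hinj : Function.Injective (Int.castRingHom ℂ) := (Int.castRingHom ℂ).injective_int
  have hm0 : h.map (Int.castRingHom ℂ) ≠ 0 := by
    rwa [Ne, Polynomial.map_eq_zero_iff hinj]
  have h1 := coeff_bound_of_roots hm0 hR (by
    intro β hβ
    refine hroots β ?_
    have : eval β (h.map (Int.castRingHom ℂ)) = 0 := (mem_roots hm0).1 hβ
    rw [map_mul, aeval_eq_eval_map h, this, zero_mul]) i
  rw [coeff_map, leadingCoeff_map_of_injective hinj, natDegree_map_eq_of_injective hinj] at h1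
  simp only [eq_intCast, Complex.norm_intCast] at h1
  refine h1.trans ?_
  have h2 : |(h.leadingCoeff : ℝ)| ≤ |((h * q).leadingCoeff : ℝ)| := by
    rw [leadingCoeff_mul, Int.cast_mul, abs_mul]
    have : (1 : ℝ) ≤ |(q.leadingCoeff : ℝ)| := by
      have := Int.one_le_abs (leadingCoeff_ne_zero.2 hq0)
      exact_mod_cast this
    nlinarith [abs_nonneg (h.leadingCoeff : ℝ)]
  have h3 : (1 + R) ^ h.natDegree ≤ (1 + R) ^ (h * q).natDegree := by
    refine pow_le_pow_right₀ (by linarith) ?_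
    rw [natDegree_mul hh0 hq0]; omega
  exact mul_le_mul h2 h3 (by positivity) (abs_nonneg _)

theorem norm_aeval_le {g : ℤ[X]} {n : ℕ} (hgn : g.natDegree ≤ n) {R T : ℝ} (hR : 1 ≤ R)
    (hg : ∑ i ∈ Finset.range (n + 1), |(g.coeff i : ℝ)| ≤ T) {β : ℂ} (hβ : ‖β‖ ≤ R) :
    ‖aeval β g‖ ≤ T * R ^ n := by
  rw [aeval_eq_sum_range' (Nat.lt_succ_of_le hgn)]
  calc ‖∑ i ∈ Finset.range (n + 1), g.coeff i • β ^ i‖
      ≤ ∑ i ∈ Finset.range (n + 1), ‖g.coeff i • β ^ i‖ := norm_sum_le _ _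
    _ ≤ ∑ i ∈ Finset.range (n + 1), |(g.coeff i : ℝ)| * R ^ n := by
        refine Finset.sum_le_sum fun i hi => ?_
        rw [zsmul_eq_mul, norm_mul, Complex.norm_intCast, norm_pow]
        refine mul_le_mul_of_nonneg_left ?_ (abs_nonneg _)
        calc ‖β‖ ^ i ≤ R ^ i := pow_le_pow_left₀ (norm_nonneg _) hβ i
          _ ≤ R ^ n := pow_le_pow_right₀ hR (by
            have := Finset.mem_range.1 hi; omega)
    _ = (∑ i ∈ Finset.range (n + 1), |(g.coeff i : ℝ)|) * R ^ n := by rw [Finset.sum_mul]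
    _ ≤ T * R ^ n := by
        refine mul_le_mul_of_nonneg_right hg (by positivity)

theorem multiset_prod_norm_le {s : Multiset ℂ} {B : ℝ} (hB : 1 ≤ B) {n : ℕ}
    (hs : Multiset.card s ≤ n) {F : ℂ → ℂ} (hF : ∀ z ∈ s, ‖F z‖ ≤ B) :
    ‖(s.map F).prod‖ ≤ B ^ n := by
  have h1 : ‖(s.map F).prod‖ ≤ B ^ Multiset.card s := by
    clear hs
    induction s using Multiset.induction_on with
    | empty => simp
    | cons a s ih =>
      rw [Multiset.map_cons, Multiset.prod_cons, norm_mul, Multiset.card_cons, pow_succ']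
      refine mul_le_mul (hF a (Multiset.mem_cons_self a s))
        (ih fun z hz => hF z (Multiset.mem_cons_of_mem hz)) (norm_nonneg _) (by linarith)
  exact h1.trans (pow_le_pow_right₀ hB hs)

/-- Liouville type lower bound -/
theorem norm_lower {f g : ℤ[X]} (hf : f ≠ 0) {n : ℕ} (hfn : f.natDegree ≤ n)
    (hgn : g.natDegree ≤ n) {H R T : ℝ} (hH : 1 ≤ H) (hR : 1 ≤ R) (hT : 1 ≤ T)
    (hlc : |(f.leadingCoeff : ℝ)| ≤ H) (hroots : ∀ β : ℂ, aeval β f = 0 → ‖β‖ ≤ R)
    (hg : ∑ i ∈ Finset.range (n + 1), |(g.coeff i : ℝ)| ≤ T) {α : ℂ} (hα : aeval α f = 0)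
    (hgα : aeval α g ≠ 0) : 1 ≤ H ^ n * (T * R ^ n) ^ n * ‖aeval α g‖ := by
  obtain ⟨h, hprim, hpos, hdeg, hαh, hirr, hmin⟩ := exists_minpoly hf hα
  have hinj : Function.Injective (Int.castRingHom ℂ) := (Int.castRingHom ℂ).injective_int
  have hinjQ : Function.Injective (Int.castRingHom ℚ) := (Int.castRingHom ℚ).injective_int
  have hh0 : h ≠ 0 := hprim.ne_zero
  obtain ⟨q, hq⟩ := hmin f hα
  have hq0 : q ≠ 0 := by
    rintro rfl
    exact hf (by rw [hq, mul_zero])
  have hdn : h.natDegree ≤ n := by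
    have : f.natDegree = h.natDegree + q.natDegree := by rw [hq, natDegree_mul hh0 hq0]
    omega
  have hlch : |(h.leadingCoeff : ℝ)| ≤ H := by
    refine le_trans ?_ hlc
    rw [hq, leadingCoeff_mul, Int.cast_mul, abs_mul]
    have : (1 : ℝ) ≤ |(q.leadingCoeff : ℝ)| := by
      have := Int.one_le_abs (leadingCoeff_ne_zero.2 hq0)
      exact_mod_cast this
    nlinarith [abs_nonneg (h.leadingCoeff : ℝ)]
  -- the resultant is a nonzero integer
  have hcop : IsCoprime (h.map (Int.castRingHom ℚ)) (g.map (Int.castRingHom ℚ)) := by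
    rcases hirr.isCoprime_or_dvd (g.map (Int.castRingHom ℚ)) with hc | hd
    · exact hc
    · exfalso
      rw [← IsPrimitive.Int.dvd_iff_map_cast_dvd_map_cast _ _ hprim] at hd
      obtain ⟨r, rfl⟩ := hd
      exact hgα (by rw [map_mul, hαh, zero_mul])
  set r : ℤ := resultant h g with hr
  have hr0 : r ≠ 0 := by
    intro h0
    have := resultant_ne_zero _ _ hcop
    rw [natDegree_map_eq_of_injective hinjQ, natDegree_map_eq_of_injective hinjQ,
      resultant_map_map, ← hr, h0, map_zero] at this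
    exact this rfl
  have hr1 : (1 : ℝ) ≤ |(r : ℝ)| := by
    have := Int.one_le_abs hr0
    exact_mod_cast this
  -- the product formula
  set hc := h.map (Int.castRingHom ℂ) with hhc
  set gc := g.map (Int.castRingHom ℂ) with hgc
  have hc0 : hc ≠ 0 := by rwa [hhc, Ne, Polynomial.map_eq_zero_iff hinj]
  have hprod : (r : ℂ) = hc.leadingCoeff ^ gc.natDegree * (hc.roots.map gc.eval).prod := by
    rw [← resultant_eq_prod_eval hc gc gc.natDegree le_rfl (IsAlgClosed.splits _)]
    rw [hhc, hgc, natDegree_map_eq_of_injective hinj, natDegree_map_eq_of_injective hinj,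
      resultant_map_map, ← hr]
    simp
  have hαr : α ∈ hc.roots := by
    rw [mem_roots hc0, IsRoot.def, hhc, ← aeval_eq_eval_map]
    exact hαh
  have hgev : ∀ β, gc.eval β = aeval β g := fun β => (aeval_eq_eval_map g β).symm
  have hB : 1 ≤ T * R ^ n := by
    have := one_le_pow₀ hR (n := n)
    nlinarith
  rw [← Multiset.cons_erase hαr, Multiset.map_cons, Multiset.prod_cons] at hprod
  have hrest : ‖((hc.roots.erase α).map gc.eval).prod‖ ≤ (T * R ^ n) ^ n := by
    refine multiset_prod_norm_le hB ?_ ?_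
    · refine (Multiset.card_le_card (Multiset.erase_le α _)).trans ?_
      refine (card_roots' hc).trans ?_
      rw [hhc, natDegree_map_eq_of_injective hinj]
      exact hdn
    · intro z hz
      have hz' : z ∈ hc.roots := Multiset.mem_of_mem_erase hz
      rw [hgev]
      refine norm_aeval_le hgn hR hg (hroots z ?_)
      have : eval z hc = 0 := (mem_roots hc0).1 hz'
      rw [hq, map_mul, aeval_eq_eval_map h, this, zero_mul]
  have hnorm : |(r : ℝ)| = ‖hc.leadingCoeff‖ ^ gc.natDegree *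
      (‖aeval α g‖ * ‖((hc.roots.erase α).map gc.eval).prod‖) := by
    rw [← Complex.norm_intCast, hprod, norm_mul, norm_pow, norm_mul, hgev]
  have hlc1 : ‖hc.leadingCoeff‖ ^ gc.natDegree ≤ H ^ n := by
    rw [hhc, leadingCoeff_map_of_injective hinj]
    simp only [eq_intCast, Complex.norm_intCast]
    calc |(h.leadingCoeff : ℝ)| ^ gc.natDegree ≤ H ^ gc.natDegree :=
          pow_le_pow_left₀ (abs_nonneg _) hlch _
      _ ≤ H ^ n := by
          refine pow_le_pow_right₀ hH ?_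
          rw [hgc, natDegree_map_eq_of_injective hinj]
          exact hgn
  calc (1 : ℝ) ≤ |(r : ℝ)| := hr1
    _ = ‖hc.leadingCoeff‖ ^ gc.natDegree *
      (‖aeval α g‖ * ‖((hc.roots.erase α).map gc.eval).prod‖) := hnorm
    _ ≤ H ^ n * (‖aeval α g‖ * (T * R ^ n) ^ n) := by
        refine mul_le_mul hlc1 (mul_le_mul_of_nonneg_left hrest (norm_nonneg _)) (by positivity)
          (by positivity)
    _ = H ^ n * (T * R ^ n) ^ n * ‖aeval α g‖ := by ring

theorem toPoly_append (l : List ℤ) (a : ℤ) :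
    toPoly (l ++ [a]) = toPoly l + C a * X ^ l.length := by
  induction l with
  | nil => simp [toPoly]
  | cons b l ih =>
    rw [List.cons_append, toPoly, toPoly, ih, List.length_cons, pow_succ]
    ring

theorem norm_toPoly_le (l : List ℤ) {β : ℂ} (hβ : 1 ≤ ‖β‖) :
    ‖aeval β (toPoly l)‖ * ‖β‖ ≤ ((l.map Int.natAbs).sum : ℝ) * ‖β‖ ^ l.length := by
  induction l with
  | nil => simp [toPoly]
  | cons a l ih =>
    rw [toPoly, map_add, map_mul, aeval_X, aeval_C, List.map_cons, List.sum_cons,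
      List.length_cons]
    have h1 : ‖(algebraMap ℤ ℂ) a + β * aeval β (toPoly l)‖ ≤
        (a.natAbs : ℝ) + ‖β‖ * ‖aeval β (toPoly l)‖ := by
      refine (norm_add_le _ _).trans ?_
      rw [norm_mul]
      have : ‖(algebraMap ℤ ℂ) a‖ = (a.natAbs : ℝ) := by
        simp [Complex.norm_intCast]
      rw [this]
    have h2 : 1 ≤ ‖β‖ ^ l.length := one_le_pow₀ hβ
    have h3 : (0 : ℝ) ≤ (a.natAbs : ℝ) := Nat.cast_nonneg _
    rw [Nat.cast_add]
    calc ‖(algebraMap ℤ ℂ) a + β * aeval β (toPoly l)‖ * ‖β‖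
        ≤ ((a.natAbs : ℝ) + ‖β‖ * ‖aeval β (toPoly l)‖) * ‖β‖ :=
          mul_le_mul_of_nonneg_right h1 (norm_nonneg _)
      _ = (a.natAbs : ℝ) * ‖β‖ + ‖β‖ * (‖aeval β (toPoly l)‖ * ‖β‖) := by ring
      _ ≤ (a.natAbs : ℝ) * (‖β‖ ^ l.length * ‖β‖) +
          ‖β‖ * (((l.map Int.natAbs).sum : ℝ) * ‖β‖ ^ l.length) := by
          refine add_le_add (mul_le_mul_of_nonneg_left ?_ h3)
            (mul_le_mul_of_nonneg_left ih (norm_nonneg _))
          nlinarith
      _ = _ := by rw [pow_succ]; ring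

/-- Cauchy's bound -/
theorem root_bound {l : List ℤ} (hl : l.getLastD 0 ≠ 0) {e : ℕ}
    (he : (l.map Int.natAbs).sum ≤ 2 ^ e) {β : ℂ} (hβ : aeval β (toPoly l) = 0) :
    ‖β‖ ≤ 2 ^ e := by
  have he1 : (1 : ℝ) ≤ 2 ^ e := one_le_pow₀ (by norm_num)
  rcases le_or_gt ‖β‖ 1 with h1 | h1
  · exact h1.trans he1
  have hne : l ≠ [] := by rintro rfl; exact hl rfl
  obtain ⟨l', a, rfl⟩ : ∃ l' a, l = l' ++ [a] :=
    ⟨l.dropLast, l.getLast hne, (List.dropLast_append_getLast hne).symm⟩
  have ha : a ≠ 0 := by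
    intro h
    exact hl (by simp [h])
  rw [toPoly_append, map_add, map_mul, map_pow, aeval_X, aeval_C] at hβ
  have h2 : ‖aeval β (toPoly l')‖ = (a.natAbs : ℝ) * ‖β‖ ^ l'.length := by
    have : aeval β (toPoly l') = -((algebraMap ℤ ℂ) a * β ^ l'.length) :=
      eq_neg_of_add_eq_zero_left hβ
    rw [this, norm_neg, norm_mul, norm_pow]
    congr 1
    simp [Complex.norm_intCast]
  have h3 := norm_toPoly_le l' h1.le
  rw [h2] at h3
  have h4 : (0 : ℝ) < ‖β‖ ^ l'.length := by positivity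
  have h5 : (a.natAbs : ℝ) * ‖β‖ ≤ ((l'.map Int.natAbs).sum : ℝ) := by
    by_contra hcon
    push Not at hcon
    nlinarith
  have h6 : (1 : ℝ) ≤ (a.natAbs : ℝ) := by
    have : 1 ≤ a.natAbs := by omega
    exact_mod_cast this
  have h7 : ((l'.map Int.natAbs).sum : ℝ) ≤ 2 ^ e := by
    have : (l'.map Int.natAbs).sum ≤ 2 ^ e := by
      refine le_trans ?_ he
      simp
    exact_mod_cast this
  nlinarith

end Pool.Agent.Helper78.UF
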